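import Pool.Agent.V5helper49.PTR.Stm

/-!
# Project PTR, job STEP: one step of the construction
-/

set_option autoImplicit false

namespace Pool.Agent.V5helper36.PTR

open Finset Filter
open Pool.Agent.V5helper42.RS (W model)
open Pool.Agent.V5helper49.PTR

lemma adm_reflect (N : ℕ) (F : Finset ℕ) (hF : F ⊆ Icc 1 N) (h : Adm F) : Adm (F.image (fun k => N - k)) := by
  intro p hp
  obtain ⟨b, hb, hbF⟩ := h p hp
  refine ⟨(N + (p - b)) % p, Nat.mod_lt _ hp.pos, ?_⟩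
  intro t ht
  rw [Finset.mem_image] at ht
  obtain ⟨k, hk, rfl⟩ := ht
  intro hc
  have hkN : k ≤ N := (Finset.mem_Icc.mp (hF hk)).2
  have h1 : (N - k) ≡ N + (p - b) [MOD p] := hc
  have h2 : (N - k) + (k + b) ≡ N + (p - b) + (k + b) [MOD p] := h1.add_right _
  have e1 : (N - k) + (k + b) = N + b := by omega
  have e2 : N + (p - b) + (k + b) = N + (k + p) := by omega
  rw [e1, e2] at h2
  have h3 : b ≡ k + p [MOD p] := Nat.ModEq.add_left_cancel' N h2
  apply hbF k hk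
  have h4 : b % p = (k + p) % p := h3
  rw [Nat.add_mod_right, Nat.mod_eq_of_lt hb] at h4
  exact h4.symm

lemma ev_exp (β : ℝ) (hβ : 0 < β) (k : ℕ) : ∀ᶠ N : ℕ in atTop, (N : ℝ) ^ k + 1 ≤ Real.exp (β * N) := by
  have h1 : ∀ᶠ x : ℝ in atTop, x ^ k + 1 ≤ Real.exp (β * x) := by
    have a1 := (isLittleO_pow_exp_pos_mul_atTop k hβ).bound (show (0 : ℝ) < 1 / 2 by norm_num)
    have a2 : ∀ᶠ x : ℝ in atTop, 2 ≤ Real.exp (β * x) :=
      (Real.tendsto_exp_atTop.comp (tendsto_id.const_mul_atTop hβ)).eventually_ge_atTop 2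
    filter_upwards [a1, a2, eventually_ge_atTop (0 : ℝ)] with x b1 b2 b3
    rw [Real.norm_of_nonneg (by positivity), Real.norm_of_nonneg (by positivity)] at b1
    linarith
  exact tendsto_natCast_atTop_atTop.eventually h1

lemma aux_w (w : ℝ) (h : 2 ≤ w) : w ≤ w ^ 2 / 2 := by nlinarith

lemma aux_t (t : ℝ) (h : 3 ≤ t) : (2 * t) ^ 2 ≤ t ^ 4 - 1 := by
  have h2 : 9 ≤ t ^ 2 := by nlinarith
  have h4 : t ^ 4 = t ^ 2 * t ^ 2 := by ring
  rw [h4, mul_pow]
  nlinarith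

theorem t_STEP (hADM : S_ADM) (hCT : S_CT) : S_STEP := by
  classical
  obtain ⟨β, hβ0, hβ12, NA, hA⟩ := hADM
  intro s hs
  have hs' : (2 : ℝ) ≤ s := by exact_mod_cast hs
  have hs1 : (0 : ℝ) < (s : ℝ) + 1 := by linarith
  obtain ⟨κ, hκ⟩ : ∃ κ : ℝ, κ = β / (4 * ((s : ℝ) + 1)) := ⟨_, rfl⟩
  have hκ0 : 0 < κ := by rw [hκ]; positivity
  have hκs : κ * ((s : ℝ) + 1) = β / 4 := by rw [hκ]; field_simp
  have hκβ : κ ≤ β / 4 := by
    rw [← hκs]; nlinarith
  refine ⟨κ, hκ0, by linarith, ?_⟩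
  intro a hReg hUni
  obtain ⟨NC, hC⟩ := hCT s hs (model a) hReg
  have E1 := (Real.tendsto_exp_atTop.comp (tendsto_natCast_atTop_atTop (R := ℝ))).eventually hUni
  have E3 := ev_exp β hβ0 (s + 1)
  have E4 := ev_exp (β / 4) (by positivity) 1
  obtain ⟨N₀, hN₀⟩ := (E1.and (E3.and (E4.and (eventually_ge_atTop (NA + NC + 16 + (4 * 2 ^ s + 2)))))).exists_forall_of_atTop
  refine ⟨N₀, ?_⟩
  intro N hN F hF hcard hAdm
  obtain ⟨u1, u3, u4, u5⟩ := hN₀ N hN
  have hN16 : 16 ≤ N := by omega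
  have hN16' : (16 : ℝ) ≤ N := by exact_mod_cast hN16
  -- the uniform statement
  obtain ⟨n', hn1, hn2, hn3⟩ := u1 N (F.image (fun k => N - k)) (by simp)
    (by
      intro t ht
      rw [Finset.mem_image] at ht
      obtain ⟨k, _, rfl⟩ := ht
      rw [Finset.mem_range]; omega)
    (by
      have h1 : ((F.image (fun k => N - k)).card : ℝ) ≤ (F.card : ℝ) := by exact_mod_cast Finset.card_image_le
      simp only [Function.comp_apply, Real.log_exp]
      exact h1.trans hcard)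
    (adm_reflect N F hF hAdm)
  simp only [Function.comp_apply] at hn1 hn2
  obtain ⟨N', hN'⟩ : ∃ N' : ℕ, N' = n' + N := ⟨_, rfl⟩
  have hN'c : (N' : ℝ) = n' + N := by rw [hN']; push_cast; ring
  have hexpN : (N : ℝ) + 1 ≤ Real.exp N := Real.add_one_le_exp _
  have hlow : Real.exp N < N' := by rw [hN'c]; linarith
  have hup : (N' : ℝ) ≤ 5 * Real.exp N := by rw [hN'c]; linarith
  have hNN' : N < N' := by
    have : (N : ℝ) < N' := by linarith
    exact_mod_cast this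
  have hN'pos : (0 : ℝ) < N' := by linarith
  have hN'1 : (1 : ℝ) ≤ N' := by linarith
  have hlog : Real.log N' ≤ 2 * N := by
    have h1 : Real.log N' ≤ Real.log (5 * Real.exp N) := Real.log_le_log hN'pos hup
    rw [Real.log_mul (by norm_num) (Real.exp_pos _).ne', Real.log_exp] at h1
    have h2 : Real.log 5 ≤ 5 - 1 := Real.log_le_sub_one_of_pos (by norm_num)
    linarith
  have hlog0 : 0 ≤ Real.log N' := Real.log_nonneg hN'1
  -- powers
  have hpow : ∀ c : ℝ, 0 < c → Real.exp (c * N) ≤ (N' : ℝ) ^ c := by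
    intro c hc
    rw [mul_comm, Real.exp_mul]
    exact Real.rpow_le_rpow (Real.exp_pos _).le hlow.le hc.le
  obtain ⟨t, ht⟩ : ∃ t : ℝ, t = (N' : ℝ) ^ (β / 4) := ⟨_, rfl⟩
  have ht3 : 3 ≤ t := by
    rw [ht]
    have := hpow (β / 4) (by positivity)
    rw [pow_one] at u4
    linarith
  have ht4 : t ^ 4 = (N' : ℝ) ^ β := by
    rw [ht, ← Real.rpow_natCast, ← Real.rpow_mul hN'pos.le]
    congr 1; push_cast; ring
  obtain ⟨x₀, hx₀⟩ : ∃ x₀ : ℕ, x₀ = ⌊(N' : ℝ) ^ β⌋₊ := ⟨_, rfl⟩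
  have hx₀le : (x₀ : ℝ) ≤ (N' : ℝ) ^ β := by rw [hx₀]; exact Nat.floor_le (by positivity)
  have hx₀gt : (N' : ℝ) ^ β - 1 ≤ x₀ := by
    rw [hx₀]; have := Nat.lt_floor_add_one ((N' : ℝ) ^ β); linarith
  have hx₀N : (N : ℝ) ^ (s + 1) ≤ x₀ := by
    have := hpow β hβ0
    linarith
  have hbase : 4 * (Real.log N') ^ s + 2 * N ≤ (N : ℝ) ^ (s + 1) := by
    have h1 : (Real.log N') ^ s ≤ (2 * (N : ℝ)) ^ s := pow_le_pow_left₀ hlog0 hlog s
    rw [mul_pow] at h1
    have h2 : (N : ℝ) ≤ (N : ℝ) ^ s := le_self_pow₀ (by linarith) (by omega)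
    have h3 : (4 * 2 ^ s + 2 : ℝ) ≤ N := by
      have : 4 * 2 ^ s + 2 ≤ N := by omega
      exact_mod_cast this
    have h4 : (N : ℝ) ^ (s + 1) = N * (N : ℝ) ^ s := by rw [pow_succ]; ring
    have h5 : (0 : ℝ) ≤ (N : ℝ) ^ s := by positivity
    rw [h4]
    nlinarith [mul_le_mul_of_nonneg_right h3 h5]
  have hNs : (N : ℝ) ≤ (N : ℝ) ^ (s + 1) := le_self_pow₀ (by linarith) (by omega)
  have hNx₀ : N ≤ x₀ := by
    have : (N : ℝ) ≤ x₀ := hNs.trans hx₀N
    exact_mod_cast this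
  have hβ12' : (N' : ℝ) ^ β ≤ (N' : ℝ) ^ (1 / 12 : ℝ) := Real.rpow_le_rpow_of_exponent_le hN'1 hβ12
  have h12 : (N' : ℝ) ^ (1 / 12 : ℝ) ≤ (N' : ℝ) ^ (1 / 10 : ℝ) := Real.rpow_le_rpow_of_exponent_le hN'1 (by norm_num)
  have hβ1 : (N' : ℝ) ^ β ≤ N' := by
    conv_rhs => rw [← Real.rpow_one (N' : ℝ)]
    exact Real.rpow_le_rpow_of_exponent_le hN'1 (by linarith)
  have hx₀N' : x₀ ≤ N' := by
    have : (x₀ : ℝ) ≤ N' := hx₀le.trans hβ1
    exact_mod_cast this
  have hNC : NC ≤ N' := by omega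
  have hNA : NA ≤ N' := by omega
  -- counts
  have hcount : ∀ x : ℕ, (N : ℝ) ^ (s + 1) ≤ x → x ≤ x₀ →
      Real.sqrt x / 2 ≤ (((Ioc N x).filter (fun k => N' - k ∈ model a)).card : ℝ) := by
    intro x hx1 hx2
    have hx2' : (x : ℝ) ≤ x₀ := by exact_mod_cast hx2
    exact hC N' hNC N x (hbase.trans hx1) (hx2'.trans (hx₀le.trans hβ12'))
  obtain ⟨G, hG⟩ : ∃ G : Finset ℕ, G = (Ioc N x₀).filter (fun k => N' - k ∈ model a) := ⟨_, rfl⟩
  have hF'mem : ∀ k ∈ F ∪ G, 1 ≤ k ∧ k ≤ x₀ ∧ N' - k ∈ model a := by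
    intro k hk
    rw [Finset.mem_union] at hk
    rcases hk with hk | hk
    · have h1 := Finset.mem_Icc.mp (hF hk)
      refine ⟨h1.1, h1.2.trans hNx₀, ?_⟩
      have h2 := hn3 (N - k) (Finset.mem_image.mpr ⟨k, hk, rfl⟩)
      have h3 : N' - k = n' + (N - k) := by omega
      rw [h3]; exact h2
    · rw [hG, Finset.mem_filter, Finset.mem_Ioc] at hk
      exact ⟨by omega, hk.1.2, hk.2⟩
  have hxt : t ≤ Real.sqrt x₀ / 2 := by
    have h1 : (2 * t) ≤ Real.sqrt x₀ := by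
      apply Real.le_sqrt_of_sq_le
      have : t ^ 4 - 1 ≤ x₀ := by rw [ht4]; exact hx₀gt
      exact (aux_t t ht3).trans this
    linarith
  have hGt : t ≤ (G.card : ℝ) := by
    rw [hG]; exact hxt.trans (hcount x₀ hx₀N le_rfl)
  refine ⟨N', F ∪ G, hNN', ?_, ?_, ?_, Finset.subset_union_left, ?_, ?_, ?_, ?_⟩
  · intro k hk
    obtain ⟨h1, h2, _⟩ := hF'mem k hk
    rw [Finset.mem_Icc]; exact ⟨h1, h2.trans hx₀N'⟩
  · have h1 : F ∪ G ⊆ Icc 1 x₀ := by
      intro k hk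
      obtain ⟨h1, h2, _⟩ := hF'mem k hk
      rw [Finset.mem_Icc]; exact ⟨h1, h2⟩
    have h2 := Finset.card_le_card h1
    rw [Nat.card_Icc, Nat.add_sub_cancel] at h2
    have h3 : ((F ∪ G).card : ℝ) ≤ x₀ := by exact_mod_cast h2
    exact h3.trans (hx₀le.trans (hβ12'.trans h12))
  · apply hA N' hNA a
    · intro k hk
      obtain ⟨h1, h2, _⟩ := hF'mem k hk
      have h2' : (k : ℝ) ≤ x₀ := by exact_mod_cast h2
      exact ⟨h1, h2'.trans hx₀le⟩
    · intro k hk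
      exact (hF'mem k hk).2.2
  · intro k hk hkN
    rw [Finset.mem_union] at hk
    rcases hk with hk | hk
    · exact hk
    · rw [hG, Finset.mem_filter, Finset.mem_Ioc] at hk
      omega
  · intro k hk
    exact (hF'mem k hk).2.2
  · rw [hκs, ← ht]
    have h1 : (G.card : ℝ) ≤ ((F ∪ G).card : ℝ) := by
      exact_mod_cast Finset.card_le_card Finset.subset_union_right
    exact hGt.trans h1
  · intro x hx1 hx2
    have hx16 : (16 : ℝ) ≤ x := by linarith
    by_cases hx : x ≤ x₀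
    · have h1 := hcount x hx1 hx
      have h2 : (Ioc N x).filter (fun k => N' - k ∈ model a) ⊆ (F ∪ G).filter (fun k => k ≤ x) := by
        intro k hk
        rw [Finset.mem_filter, Finset.mem_Ioc] at hk
        rw [Finset.mem_filter, Finset.mem_union, hG, Finset.mem_filter, Finset.mem_Ioc]
        exact ⟨Or.inr ⟨⟨hk.1.1, hk.1.2.trans hx⟩, hk.2⟩, hk.1.2⟩
      have h3 : (((Ioc N x).filter (fun k => N' - k ∈ model a)).card : ℝ) ≤ (((F ∪ G).filter (fun k => k ≤ x)).card : ℝ) := by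
        exact_mod_cast Finset.card_le_card h2
      have h4 : (x : ℝ) ^ κ ≤ (x : ℝ) ^ (1 / 4 : ℝ) :=
        Real.rpow_le_rpow_of_exponent_le (by linarith) (by linarith)
      obtain ⟨w, hw⟩ : ∃ w : ℝ, w = (x : ℝ) ^ (1 / 4 : ℝ) := ⟨_, rfl⟩
      have hw0 : 0 ≤ w := by rw [hw]; positivity
      have hw4 : w ^ 4 = x := by
        rw [hw, ← Real.rpow_natCast, ← Real.rpow_mul (by positivity)]
        norm_num
      have hw2 : 2 ≤ w := by
        by_contra hlt
        push Not at hlt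
        have : w ^ 4 < 2 ^ 4 := pow_lt_pow_left₀ hlt hw0 (by norm_num)
        rw [hw4] at this
        linarith
      have h5 : Real.sqrt x = w ^ 2 := by
        rw [← hw4, show w ^ 4 = (w ^ 2) ^ 2 by ring]
        exact Real.sqrt_sq (by positivity)
      rw [h5] at h1
      rw [← hw] at h4
      exact h4.trans ((aux_w w hw2).trans (h1.trans h3))
    · push Not at hx
      have h2 : G ⊆ (F ∪ G).filter (fun k => k ≤ x) := by
        intro k hk
        rw [Finset.mem_filter, Finset.mem_union]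
        refine ⟨Or.inr hk, ?_⟩
        rw [hG, Finset.mem_filter, Finset.mem_Ioc] at hk
        omega
      have h3 : (G.card : ℝ) ≤ (((F ∪ G).filter (fun k => k ≤ x)).card : ℝ) := by
        exact_mod_cast Finset.card_le_card h2
      have hx2' : (x : ℝ) ≤ N' := by exact_mod_cast hx2
      have h4 : (x : ℝ) ^ κ ≤ (N' : ℝ) ^ κ := Real.rpow_le_rpow (by positivity) hx2' hκ0.le
      have h5 : (N' : ℝ) ^ κ ≤ (N' : ℝ) ^ (β / 4) := Real.rpow_le_rpow_of_exponent_le hN'1 hκβ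
      rw [← ht] at h5
      linarith

end Pool.Agent.V5helper36.PTR
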